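import Pool.Agent.KS6_79.GV.C

/-!
MP_77d991_gt, Q1 (the greatest value of Gromov's mass of a unit ball and the bodies attaining it),
for arbitrary sets in place of symmetric convex bodies, with all the values of the mass.
-/

set_option autoImplicit false
open MeasureTheory Set Module
open scoped ENNReal

namespace Pool.Agent.Results.MP_77d991_gt.EverySetEveryValue

open Pool.Agent.KS6_79.GV
open Pool.Agent.Helper481

/-- Let `d ≥ 1` and let `κ_d` be the volume of the Euclidean unit ball of `ℝᵈ`.
(1) `κ_d = π^(d/2) / Γ(d/2 + 1)`, and `conv {± v_1, …, ± v_d}` has volume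
`(2^d / d!) |det (v_1, …, v_d)|`.
(2) Every set `A ⊆ ℝᵈ` (not assumed convex, symmetric, bounded or measurable) with
`|det (v_1, …, v_d)| ≤ D` for all `v_1, …, v_d ∈ A` has (outer) volume at most `κ_d D`.
(3) For compact `A` and `D > 0` equality holds in (2) exactly when `A` is an ellipsoid with centre
`0` and volume `κ_d D`.
(4) For every `o`-symmetric convex body the greatest cross-polytope volume is attained and
positive; the set of the values of Gromov's mass on these bodies is the whole interval
`[2^d / d!, κ_d]`.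
(5) The greatest value is attained exactly by the ellipsoids.
(6) The least value is attained exactly by the cross-polytopes. -/
theorem result (d : ℕ) (hd : 1 ≤ d) :
    ((volume (euclideanBall d)).toReal = Real.sqrt Real.pi ^ d / Real.Gamma ((d : ℝ) / 2 + 1) ∧
      ∀ v : Fin d → (Fin d → ℝ),
        (volume (crossPolytope v)).toReal = |(Matrix.of v).det| * (2 ^ d / d.factorial)) ∧
    (∀ (A : Set (Fin d → ℝ)) (D : ℝ),
      (∀ v : Fin d → (Fin d → ℝ), (∀ i, v i ∈ A) → |(Matrix.of v).det| ≤ D) →
        volume A ≤ volume (euclideanBall d) * ENNReal.ofReal D) ∧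
    (∀ (A : Set (Fin d → ℝ)) (D : ℝ), IsCompact A → 0 < D →
      (∀ v : Fin d → (Fin d → ℝ), (∀ i, v i ∈ A) → |(Matrix.of v).det| ≤ D) →
        (volume A = volume (euclideanBall d) * ENNReal.ofReal D ↔
          ∃ B : Matrix (Fin d) (Fin d) ℝ, |B.det| = D ∧
            A = (fun x => B.mulVec x) '' euclideanBall d)) ∧
    ((∀ M : Set (Fin d → ℝ), IsSymConvexBody M →
        IsGreatest (crossVolumes M) (maxCross M) ∧ 0 < maxCross M) ∧
      {t : ℝ | ∃ M : Set (Fin d → ℝ), IsSymConvexBody M ∧ t = gromovMass M} =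
        Icc ((2 : ℝ) ^ d / d.factorial) (volume (euclideanBall d)).toReal) ∧
    (∀ M : Set (Fin d → ℝ), IsSymConvexBody M →
      (gromovMass M = (volume (euclideanBall d)).toReal ↔ IsEllipsoid M)) ∧
    (∀ M : Set (Fin d → ℝ), IsSymConvexBody M →
      (gromovMass M = (2 : ℝ) ^ d / d.factorial ↔
        ∃ v : Fin d → (Fin d → ℝ), LinearIndependent ℝ v ∧ M = crossPolytope v)) := by
  have hd0 : 0 < d := hd
  have hκ0 : (volume (euclideanBall d)) ≠ 0 := (kappa_pos' d).ne'
  have hκt : (volume (euclideanBall d)) ≠ ⊤ := (MB.eball_compact d).measure_lt_top.ne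
  have hmassle : ∀ M : Set (Fin d → ℝ), IsSymConvexBody M →
      gromovMass M ≤ (volume (euclideanBall d)).toReal := by
    intro M hM
    obtain ⟨v, hv, hpos, hmax⟩ := exists_max hM
    rw [mass_eq hd0 hM hv hpos hmax, div_le_iff₀ hpos]
    have h1 := MB.macbeath_pi d hM.isCompact hM.convex hmax
    have h2 := ENNReal.toReal_mono (ENNReal.mul_ne_top hκt ENNReal.ofReal_ne_top) h1
    rwa [ENNReal.toReal_mul, ENNReal.toReal_ofReal (abs_nonneg _)] at h2
  refine ⟨⟨?_, fun v => vol_cross hd0 v⟩, fun A D h => vol_le h, ?_, ⟨?_, ?_⟩, ?_,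
    fun M hM => mass_eq_low hd0 hM⟩
  · have : Nonempty (Fin d) := ⟨⟨0, hd0⟩⟩
    have h1 : volume (euclideanBall d) =
        volume (Metric.closedBall (0 : EuclideanSpace ℝ (Fin d)) 1) := (MB.kap_eq d).symm
    rw [h1, EuclideanSpace.volume_closedBall]
    simp only [ENNReal.ofReal_one, one_pow, one_mul, Fintype.card_fin]
    rw [ENNReal.toReal_ofReal (by positivity)]
  · intro A D hA hD h
    constructor
    · intro hv
      obtain ⟨B, hB, hBA⟩ := eq_case hd hA hD h hv.ge
      refine ⟨B, ?_, hBA⟩
      have h1 := vol_image B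
      rw [← hBA] at h1
      have h2 : volume (euclideanBall d) * ENNReal.ofReal D =
          volume (euclideanBall d) * ENNReal.ofReal |B.det| := hv.symm.trans h1
      have h3 := (ENNReal.mul_right_inj hκ0 hκt).1 h2
      exact ((ENNReal.ofReal_eq_ofReal_iff hD.le (abs_nonneg _)).1 h3).symm
    · rintro ⟨B, hB, rfl⟩
      rw [← hB]
      exact vol_image B
  · intro M hM
    obtain ⟨v, hv, hpos, hmax⟩ := exists_max hM
    have h1 := maxCross_spec hd0 hM hv hpos hmax
    have h2 : maxCross M = |(Matrix.of v).det| * (2 ^ d / d.factorial) := h1.csSup_eq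
    rw [h2]
    exact ⟨h1, by positivity⟩
  · ext t
    constructor
    · rintro ⟨M, hM, rfl⟩
      exact ⟨mass_ge hd0 hM, hmassle M hM⟩
    · exact fun ht => attained hd ht
  · intro M hM
    refine ⟨fun h => ?_, mass_ellipsoid hd0 hM⟩
    obtain ⟨v, hv, hpos, hmax⟩ := exists_max hM
    rw [mass_eq hd0 hM hv hpos hmax, div_eq_iff hpos.ne'] at h
    apply Y507.GM.equality hd hM.isCompact hM.convex hM.interior_nonempty hM.neg_mem hpos hmax
    have h1 : volume M = ENNReal.ofReal (volume M).toReal :=
      (ENNReal.ofReal_toReal hM.isCompact.measure_lt_top.ne).symm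
    rw [h1, h, ENNReal.ofReal_mul ENNReal.toReal_nonneg]
    refine mul_le_mul_left ?_ _
    exact (ENNReal.ofReal_toReal (a := volume (euclideanBall d)) hκt).ge

end Pool.Agent.Results.MP_77d991_gt.EverySetEveryValue
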